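import Pool.Agent.H343.QF.StL
import Pool.Graph.R_seed8.Helper446.RE

/-! # L3: the word problem is recursively enumerable -/

set_option autoImplicit false

namespace Pool.Agent.H922.QF

open Pool.Agent.H343.QF Pool.Agent.Helper446

/-- words -/
abbrev Wo : Type := List (Fin 2 × Bool)

/-- power of a letter -/
def pw (x : Fin 2 × Bool) (k : ℕ) : Wo := (List.range k).map fun _ => x

/-- power of a word -/
def wpow (p : Wo) : ℕ → Wo
  | 0 => []
  | n + 1 => wpow p n ++ p

/-- the word of `blk` -/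
def wblk (c p : Wo) : ℕ → Wo
  | 0 => []
  | n + 1 => wblk c p n ++ (wpow p (n + 1) ++ c)

/-- the word of `Wd` -/
def wWd (B k : ℕ) : Wo := wblk [(1, true)] (pw (0, true) k) B

/-- the word of `Sd` -/
def wSd (B : ℕ) (x z p : Wo) : Wo :=
  x ++ pw (1, true) 3 ++ z ++ pw (1, true) 3 ++ wblk (pw (1, true) 2) p B

/-- the letter -/
def wltr (k : ℕ) : Wo :=
  if k % 4 = 0 then [(0, true)] else if k % 4 = 1 then [(0, false)] else
    if k % 4 = 2 then [(1, true)] else [(1, false)]

/-- the inverse word -/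
def winv (l : Wo) : Wo := (l.map fun g => (g.1, !g.2)).reverse

/-- the word of the relator -/
def wrel (B m : ℕ) : Wo :=
  if m % 2 = 0 then wSd B (pw (0, true) (m / 2)) (pw (0, true) ((m / 2) * (m / 2)))
    (pw (0, true) (eeB B m))
  else wWd B (eeB B m) ++ winv (wWd B (m / 2 / 4) ++ wltr (m / 2))

/-- a conjugate of a relator or its inverse -/
def cw (B : ℕ) (t : Wo × ℕ × Bool) : Wo :=
  t.1 ++ (if t.2.2 = true then wrel B t.2.1 else winv (wrel B t.2.1)) ++ winv t.1

/-! ### values -/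

theorem mk_app (x y : Wo) : (FreeGroup.mk (x ++ y) : F2) = FreeGroup.mk x * FreeGroup.mk y :=
  FreeGroup.mul_mk.symm

theorem mk_pw (i : Fin 2) (k : ℕ) : (FreeGroup.mk (pw (i, true) k) : F2) = FreeGroup.of i ^ k := by
  induction k with
  | zero => rfl
  | succ k ih =>
    have e : pw (i, true) (k + 1) = pw (i, true) k ++ [(i, true)] := by
      unfold pw
      rw [List.range_succ, List.map_append]
      rfl
    rw [e, mk_app, ih, pow_succ]
    rfl

theorem mk_wpow (p : Wo) (k : ℕ) : (FreeGroup.mk (wpow p k) : F2) = FreeGroup.mk p ^ k := by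
  induction k with
  | zero => rfl
  | succ k ih =>
    rw [wpow, mk_app, ih, pow_succ]

theorem mk_wblk (c p : Wo) (k : ℕ) :
    (FreeGroup.mk (wblk c p k) : F2) = blk (FreeGroup.mk c) (FreeGroup.mk p) k := by
  induction k with
  | zero => rfl
  | succ k ih =>
    rw [wblk, mk_app, mk_app, ih, mk_wpow]
    rfl

theorem mk_winv (l : Wo) : (FreeGroup.mk (winv l) : F2) = (FreeGroup.mk l)⁻¹ :=
  FreeGroup.inv_mk.symm

theorem mk_wWd (B k : ℕ) : (FreeGroup.mk (wWd B k) : F2) = Wd B xa xb k := by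
  unfold wWd Wd
  rw [mk_wblk, mk_pw]
  rfl

theorem mk_wltr (k : ℕ) : (FreeGroup.mk (wltr k) : F2) = ltr xa xb k := by
  unfold wltr ltr
  split_ifs <;> rfl

theorem mk_wrel (B m : ℕ) : (FreeGroup.mk (wrel B m) : F2) = rel B (eeB B) xa xb m := by
  unfold wrel rel
  split_ifs with h
  · unfold wSd Sd
    rw [mk_app, mk_app, mk_app, mk_app, mk_wblk, mk_pw, mk_pw, mk_pw, mk_pw, mk_pw,
      ← sq (m / 2)]
  · rw [mk_app, mk_winv, mk_app, mk_wWd, mk_wWd, mk_wltr]

theorem mk_cw (B : ℕ) (t : Wo × ℕ × Bool) : (FreeGroup.mk (cw B t) : F2) =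
    FreeGroup.mk t.1 * (if t.2.2 = true then rel B (eeB B) xa xb t.2.1 else
      (rel B (eeB B) xa xb t.2.1)⁻¹) * (FreeGroup.mk t.1)⁻¹ := by
  unfold cw
  rw [mk_app, mk_app, mk_winv]
  split_ifs with h
  · rw [mk_wrel]
  · rw [mk_winv, mk_wrel]

/-! ### the normal closure -/

theorem mem_iff (B : ℕ) (g : F2) : g ∈ KI B (eeB B) ↔
    ∃ T : List (Wo × ℕ × Bool), g = FreeGroup.mk (T.flatMap (cw B)) := by
  constructor
  · intro hg
    have hg1 : g ∈ (Subgroup.closure (Group.conjugatesOfSet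
        (Set.range (rel B (eeB B) xa xb)))).toSubmonoid := hg
    rw [Subgroup.closure_toSubmonoid] at hg1
    obtain ⟨l, hl, rfl⟩ := Submonoid.exists_list_of_mem_closure hg1
    clear hg hg1
    induction l with
    | nil => exact ⟨[], rfl⟩
    | cons y l ih =>
      obtain ⟨T, hT⟩ := ih fun z hz => hl z (List.mem_cons_of_mem _ hz)
      have hy : ∃ t : Wo × ℕ × Bool, y = FreeGroup.mk (cw B t) := by
        rcases hl y List.mem_cons_self with h | h
        · obtain ⟨r, ⟨m, hm⟩, hr⟩ := Group.mem_conjugatesOfSet_iff.1 h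
          obtain ⟨u, hu⟩ := isConj_iff.1 hr
          refine ⟨(u.toWord, m, true), ?_⟩
          rw [mk_cw, if_pos rfl, FreeGroup.mk_toWord, hm, hu]
        · obtain ⟨r, ⟨m, hm⟩, hr⟩ := Group.mem_conjugatesOfSet_iff.1 h
          obtain ⟨u, hu⟩ := isConj_iff.1 hr
          refine ⟨(u.toWord, m, false), ?_⟩
          rw [mk_cw, if_neg Bool.false_ne_true, FreeGroup.mk_toWord, hm]
          have h3 := congrArg (fun z => z⁻¹) hu
          simp only [mul_inv_rev, inv_inv] at h3
          rw [← h3, mul_assoc]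
      obtain ⟨t, ht⟩ := hy
      refine ⟨t :: T, ?_⟩
      rw [List.flatMap_cons, mk_app, ← ht, ← hT, List.prod_cons]
  · rintro ⟨T, rfl⟩
    induction T with
    | nil => exact (KI B (eeB B)).one_mem
    | cons t T ih =>
      rw [List.flatMap_cons, mk_app]
      refine (KI B (eeB B)).mul_mem ?_ ih
      rw [mk_cw]
      have hN : (KI B (eeB B)).Normal := inferInstance
      refine hN.conj_mem _ ?_ _
      have hr : rel B (eeB B) xa xb t.2.1 ∈ KI B (eeB B) :=
        Subgroup.subset_normalClosure ⟨_, rfl⟩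
      split_ifs
      · exact hr
      · exact (KI B (eeB B)).inv_mem hr

/-! ### computability -/

theorem p_pw (x : Fin 2 × Bool) : Primrec (pw x) :=
  Primrec.list_map Primrec.list_range (Primrec₂.const x)

theorem p_wpow (n : ℕ) : Primrec fun p : Wo => wpow p n := by
  induction n with
  | zero => exact Primrec.const []
  | succ n ih => exact Primrec.list_append.comp ih Primrec.id

theorem p_wblk (c : Wo) (n : ℕ) : Primrec fun p : Wo => wblk c p n := by
  induction n with
  | zero => exact Primrec.const []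
  | succ n ih =>
    exact Primrec.list_append.comp ih
      (Primrec.list_append.comp (p_wpow (n + 1)) (Primrec.const c))

theorem p_wWd (B : ℕ) : Primrec (wWd B) := (p_wblk _ B).comp (p_pw _)

theorem p_winv : Primrec winv := by
  refine Primrec.list_reverse.comp (Primrec.list_map Primrec.id ?_)
  exact (Primrec.pair (Primrec.fst.comp Primrec.snd)
    (Primrec.not.comp (Primrec.snd.comp Primrec.snd))).to₂

theorem p_ee (B : ℕ) : Primrec (eeB B) := by
  have h : Primrec (Nat.rec (10 ^ 20 * B ^ 6) fun m e => 10 ^ 20 * B ^ 6 * ((m + 2) * (m + 2)) * e :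
      ℕ → ℕ) := by
    refine Primrec.nat_rec₁ (10 ^ 20 * B ^ 6) ?_
    have h1 : Primrec fun q : ℕ × ℕ => q.1 + 2 :=
      Primrec.nat_add.comp Primrec.fst (Primrec.const 2)
    exact Primrec.nat_mul.comp (Primrec.nat_mul.comp (Primrec.const (10 ^ 20 * B ^ 6))
      (Primrec.nat_mul.comp h1 h1)) Primrec.snd
  refine h.of_eq fun m => ?_
  induction m with
  | zero => rfl
  | succ m ih =>
    show 10 ^ 20 * B ^ 6 * ((m + 2) * (m + 2)) * _ = 10 ^ 20 * B ^ 6 * (m + 2) ^ 2 * eeB B m
    rw [ih, sq]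

theorem p_half : Primrec fun m : ℕ => m / 2 := Primrec.nat_div.comp Primrec.id (Primrec.const 2)

theorem p_eqc (f : ℕ → ℕ) (hf : Primrec f) (c : ℕ) : PrimrecPred fun m => f m = c :=
  Primrec.eq.comp hf (Primrec.const c)

theorem p_wltr : Primrec wltr := by
  have h4 : Primrec fun k : ℕ => k % 4 := Primrec.nat_mod.comp Primrec.id (Primrec.const 4)
  unfold wltr
  exact Primrec.ite (p_eqc _ h4 0) (Primrec.const _) (Primrec.ite (p_eqc _ h4 1) (Primrec.const _)
    (Primrec.ite (p_eqc _ h4 2) (Primrec.const _) (Primrec.const _)))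

theorem p_wrel (B : ℕ) : Primrec (wrel B) := by
  have h2 : Primrec fun k : ℕ => k % 2 := Primrec.nat_mod.comp Primrec.id (Primrec.const 2)
  have hA : Primrec fun m : ℕ => wSd B (pw (0, true) (m / 2)) (pw (0, true) ((m / 2) * (m / 2)))
      (pw (0, true) (eeB B m)) := by
    unfold wSd
    refine Primrec.list_append.comp (Primrec.list_append.comp (Primrec.list_append.comp
      (Primrec.list_append.comp ?_ (Primrec.const _)) ?_) (Primrec.const _)) ?_
    · exact (p_pw _).comp p_half
    · exact (p_pw _).comp (Primrec.nat_mul.comp p_half p_half)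
    · exact (p_wblk _ B).comp ((p_pw _).comp (p_ee B))
  have hB : Primrec fun m : ℕ => wWd B (eeB B m) ++ winv (wWd B (m / 2 / 4) ++ wltr (m / 2)) := by
    refine Primrec.list_append.comp ((p_wWd B).comp (p_ee B)) (p_winv.comp
      (Primrec.list_append.comp ((p_wWd B).comp ?_) (p_wltr.comp p_half)))
    exact Primrec.nat_div.comp p_half (Primrec.const 4)
  unfold wrel
  exact Primrec.ite (p_eqc _ h2 0) hA hB

theorem p_cw (B : ℕ) : Primrec (cw B) := by
  unfold cw
  refine Primrec.list_append.comp (Primrec.list_append.comp Primrec.fst ?_) (p_winv.comp Primrec.fst)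
  have h1 : Primrec fun t : Wo × ℕ × Bool => wrel B t.2.1 :=
    (p_wrel B).comp (Primrec.fst.comp Primrec.snd)
  have h2 : PrimrecPred fun t : Wo × ℕ × Bool => t.2.2 = true :=
    Primrec.eq.comp (Primrec.snd.comp Primrec.snd) (Primrec.const true)
  exact Primrec.ite h2 h1 (p_winv.comp h1)

/-- one step of the reduction -/
def stp (x : Fin 2 × Bool) (s : Wo) : Wo :=
  List.casesOn s [x] fun y t => if x.1 = y.1 ∧ x.2 = !y.2 then t else x :: y :: t

theorem p_stp : Primrec₂ stp := by
  unfold stp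
  refine Primrec.list_casesOn (f := fun q : (Fin 2 × Bool) × Wo => q.2) (g := fun q => [q.1])
    (h := fun q r => if q.1.1 = r.1.1 ∧ q.1.2 = !r.1.2 then r.2 else q.1 :: r.1 :: r.2)
    Primrec.snd (Primrec.list_cons.comp Primrec.fst (Primrec.const [])) ?_
  have a1 : Primrec fun z : ((Fin 2 × Bool) × Wo) × ((Fin 2 × Bool) × Wo) => z.1.1 :=
    Primrec.fst.comp Primrec.fst
  have a2 : Primrec fun z : ((Fin 2 × Bool) × Wo) × ((Fin 2 × Bool) × Wo) => z.2.1 :=
    Primrec.fst.comp Primrec.snd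
  have a3 : Primrec fun z : ((Fin 2 × Bool) × Wo) × ((Fin 2 × Bool) × Wo) => z.2.2 :=
    Primrec.snd.comp Primrec.snd
  have hc : PrimrecPred fun z : ((Fin 2 × Bool) × Wo) × ((Fin 2 × Bool) × Wo) =>
      z.1.1.1 = z.2.1.1 ∧ z.1.1.2 = !z.2.1.2 := by
    refine PrimrecPred.and ?_ ?_
    · exact Primrec.eq.comp (Primrec.fst.comp a1) (Primrec.fst.comp a2)
    · exact Primrec.eq.comp (Primrec.snd.comp a1) (Primrec.not.comp (Primrec.snd.comp a2))
  exact (Primrec.ite hc a3 (Primrec.list_cons.comp a1 (Primrec.list_cons.comp a2 a3))).to₂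

theorem p_reduce : Primrec (FreeGroup.reduce : Wo → Wo) := by
  have h : Primrec fun l : Wo => l.foldr (fun b s => stp b s) [] :=
    Primrec.list_foldr Primrec.id (Primrec.const []) (p_stp.comp (Primrec.fst.comp Primrec.snd)
      (Primrec.snd.comp Primrec.snd)).to₂
  refine h.of_eq fun l => ?_
  induction l with
  | nil => rfl
  | cons x l ih =>
    rw [List.foldr_cons, ih]
    rfl

theorem wp : S_wp := by
  intro B
  have h1 : REPred fun q : Wo × List (Wo × ℕ × Bool) =>
      (FreeGroup.reduce q.1 : Wo) = FreeGroup.reduce (q.2.flatMap (cw B)) := by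
    refine RE.eq ?_ ?_
    · exact (p_reduce.comp Primrec.fst).to_comp
    · refine (p_reduce.comp (Primrec.list_flatMap Primrec.snd ?_)).to_comp
      exact ((p_cw B).comp Primrec.snd).to₂
  have h2 : REPred fun l : Wo => ∃ T : List (Wo × ℕ × Bool),
      (FreeGroup.reduce l : Wo) = FreeGroup.reduce (T.flatMap (cw B)) :=
    RE.ex (p := fun (l : Wo) (T : List (Wo × ℕ × Bool)) =>
      (FreeGroup.reduce l : Wo) = FreeGroup.reduce (T.flatMap (cw B))) h1
  refine h2.of_eq fun l => ?_
  rw [mem_iff]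
  constructor
  · rintro ⟨T, hT⟩
    exact ⟨T, FreeGroup.reduce.exact hT⟩
  · rintro ⟨T, hT⟩
    exact ⟨T, FreeGroup.reduce.sound hT⟩

end Pool.Agent.H922.QF
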